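import Pool.Agent.Helper95_CLB.Chain

/-!
Conflicts between the two ends of a chain: a general form with conflict sets at the end, and the form with
one larger list inside the chain.
-/

set_option autoImplicit false

namespace CLB.H91

open Finset
open H3DA (Q neg nr)
open CLB.H95

/-- Start labels `B`, each with at most one forbidden end label. If `B` has five labels, or if one of
at least two labels has no forbidden end label, some walk avoids the conflict. -/
theorem end_conflict {A : ℕ → Finset Q} {k : ℕ} (hk : 0 < k)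
    (hA : ∀ i, 0 < i → i ≤ k → 4 ≤ (A i).card) {B : Finset Q} (C : Q → Finset Q)
    (hC : ∀ b ∈ B, (C b).card ≤ 1)
    (hB : 5 ≤ B.card ∨ (2 ≤ B.card ∧ ∃ b ∈ B, C b = ∅)) :
    ∃ a ∈ B, ∃ b ∈ reach {a} A k, b ∉ C a := by
  by_contra hcon
  push Not at hcon
  have hpair : ∀ a ∈ B, ∀ b ∈ B, a ≠ b → reach {a, b} A k ⊆ C a ∪ C b := by
    intro a ha b hb _ x hx
    rw [reach_start] at hx
    obtain ⟨y, hy, hxy⟩ := hx
    simp only [mem_insert, mem_singleton] at hy
    rw [mem_union]
    rcases hy with rfl | rfl
    · exact Or.inl (hcon _ ha x hxy)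
    · exact Or.inr (hcon _ hb x hxy)
  have hcard : ∀ a ∈ B, ∀ b ∈ B, a ≠ b → 2 ≤ (C a ∪ C b).card := by
    intro a ha b hb hab
    refine le_trans (reach_card2 ?_ hA) (Finset.card_le_card (hpair a ha b hb hab))
    rw [Finset.card_pair hab]
  rcases hB with h5 | ⟨h2, b, hb, hCb⟩
  · -- all conflict sets are different single labels of the last list
    have hdisj : ∀ a ∈ B, ∀ b ∈ B, a ≠ b → Disjoint (C a) (C b) := by
      intro a ha b hb hab
      have h1 := hcard a ha b hb hab
      have h2 := Finset.card_union_add_card_inter (C a) (C b)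
      have h3 := hC a ha
      have h4 := hC b hb
      rw [Finset.disjoint_iff_inter_eq_empty, ← Finset.card_eq_zero]
      omega
    obtain ⟨a, ha, b, hb, hab⟩ := Finset.one_lt_card.1 (show 1 < B.card by omega)
    have hAk : (A k).card ≤ 4 := by
      obtain ⟨n, rfl⟩ : ∃ n, k = n + 1 := ⟨k - 1, by omega⟩
      have h1 : 2 ≤ (reach {a, b} A n).card :=
        reach_card2 (by rw [Finset.card_pair hab]) (fun i h0 hi => hA i h0 (by omega))
      have h2 := nb_card2 h1
      have h3 := card_inter_ge (nb (reach {a, b} A n)) (A (n + 1))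
      rw [← reach_succ] at h3
      have h4 := Finset.card_le_card (hpair a ha b hb hab)
      have h5 := Finset.card_union_le (C a) (C b)
      have h6 := hC a ha
      have h7 := hC b hb
      omega
    have hmem : ∀ a ∈ B, 1 ≤ (C a ∩ A k).card := by
      intro a ha
      obtain ⟨b, hb, hne⟩ := Finset.exists_mem_ne (show 1 < B.card by omega) a
      have h1 : 2 ≤ (reach {a, b} A k).card := reach_card2 (by rw [Finset.card_pair hne.symm]) hA
      have h2 : reach {a, b} A k ⊆ (C a ∩ A k) ∪ C b := by
        intro x hx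
        have hx1 := hpair a ha b hb hne.symm hx
        have hx2 := reach_subset _ _ _ hk hx
        rw [mem_union] at hx1
        rw [mem_union, mem_inter]
        rcases hx1 with h | h
        · exact Or.inl ⟨h, hx2⟩
        · exact Or.inr h
      have h3 := Finset.card_le_card h2
      have h4 := Finset.card_union_le (C a ∩ A k) (C b)
      have h5 := hC b hb
      omega
    have h1 : B.card ≤ (B.biUnion (fun a => C a ∩ A k)).card := by
      rw [Finset.card_biUnion]
      · calc B.card = ∑ _a ∈ B, 1 := by simp
          _ ≤ ∑ a ∈ B, (C a ∩ A k).card := Finset.sum_le_sum hmem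
      · intro a ha b hb hab
        exact (hdisj a ha b hb hab).mono (Finset.inter_subset_left) (Finset.inter_subset_left)
    have h2 : B.biUnion (fun a => C a ∩ A k) ⊆ A k := by
      intro x hx
      rw [mem_biUnion] at hx
      obtain ⟨a, _, hx⟩ := hx
      exact (mem_inter.1 hx).2
    have h3 := Finset.card_le_card h2
    omega
  · obtain ⟨a, ha, hne⟩ := Finset.exists_mem_ne (show 1 < B.card by omega) b
    have h1 := hcard a ha b hb hne
    rw [hCb, Finset.union_empty] at h1
    have h2 := hC a ha
    omega

/-! ### Interior slack -/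

/-- Componentwise sum of three labels. -/
def x3 (x y z : Q) : Q := (xor (xor x.1 y.1) z.1, xor (xor x.2.1 y.2.1) z.2.1, xor (xor x.2.2 y.2.2) z.2.2)

set_option synthInstance.maxSize 1000 in
lemma x3_ne : ∀ x y z : Q, x ≠ y → x ≠ z → y ≠ z → x3 x y z ≠ x ∧ x3 x y z ≠ y ∧ x3 x y z ≠ z := by
  decide

/-- The labels near at most one of the sets `T i`. -/
def few (T : Fin 3 → Finset Q) : Finset Q :=
  univ.filter (fun z => ∀ i j, z ∈ nb (T i) → z ∈ nb (T j) → i = j)

/-- The labels near none of the sets `T i`. -/
def none3 (T : Fin 3 → Finset Q) : Finset Q :=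
  univ.filter (fun z => ∀ i, z ∉ nb (T i))

lemma mem_few {T : Fin 3 → Finset Q} {z : Q} :
    z ∈ few T ↔ ∀ i j, z ∈ nb (T i) → z ∈ nb (T j) → i = j := by unfold few; simp

lemma mem_none3 {T : Fin 3 → Finset Q} {z : Q} : z ∈ none3 T ↔ ∀ i, z ∉ nb (T i) := by
  unfold none3; simp

lemma none3_subset (T : Fin 3 → Finset Q) : none3 T ⊆ few T := by
  intro z hz
  rw [mem_none3] at hz
  rw [mem_few]
  intro i j hi
  exact absurd hi (hz i)

/-- Boolean test: near at most one of three labels. -/
def fewb (a b c z : Q) : Bool :=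
  !((nr a z && nr b z) || (nr a z && nr c z) || (nr b z && nr c z))

lemma fewb_card : ∀ a b c : Q, a ≠ b → a ≠ c → b ≠ c →
    (univ.filter (fun z => fewb a b c z = true)).card ≤ 4 := by decide +kernel

lemma noneb_card : ∀ a b c : Q, a ≠ b → a ≠ c → b ≠ c →
    (univ.filter (fun z => nr a z = false ∧ nr b z = false ∧ nr c z = false)).card ≤ 1 := by
  decide +kernel

/-- All labels. -/
def L8 : List Q := [(false, false, false), (false, false, true), (false, true, false),
  (false, true, true), (true, false, false), (true, false, true), (true, true, false),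
  (true, true, true)]

lemma mem_L8 : ∀ x : Q, x ∈ L8 := by decide

/-- Boolean form of the next lemma. -/
def chk (a b c : Q) : Bool :=
  (a == b || a == c || b == c) || (L8.all (fun u => nr a u || nr b u || nr c u)) ||
  (L8.all (fun x => L8.all (fun y => L8.all (fun z =>
    !(fewb a b c x && fewb a b c y && fewb a b c z) || fewb a b c (x3 x y z)))))

lemma chk_all : L8.all (fun a => L8.all (fun b => L8.all (fun c => chk a b c))) = true := by
  decide +kernel

lemma few_spec {a b c u x y z : Q} (hab : a ≠ b) (hac : a ≠ c) (hbc : b ≠ c)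
    (h1 : nr a u = false) (h2 : nr b u = false) (h3 : nr c u = false)
    (hx : fewb a b c x = true) (hy : fewb a b c y = true) (hz : fewb a b c z = true) :
    fewb a b c (x3 x y z) = true := by
  have h := chk_all
  rw [List.all_eq_true] at h
  have h := h a (mem_L8 a)
  rw [List.all_eq_true] at h
  have h := h b (mem_L8 b)
  rw [List.all_eq_true] at h
  have h := h c (mem_L8 c)
  unfold chk at h
  rw [Bool.or_eq_true, Bool.or_eq_true] at h
  rcases h with (h | h) | h
  · simp [hab, hac, hbc] at h
  · rw [List.all_eq_true] at h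
    have h := h u (mem_L8 u)
    simp [h1, h2, h3] at h
  · rw [List.all_eq_true] at h
    have h := h x (mem_L8 x)
    rw [List.all_eq_true] at h
    have h := h y (mem_L8 y)
    rw [List.all_eq_true] at h
    have h := h z (mem_L8 z)
    simpa [hx, hy, hz] using h

/-- Three sets of labels with large unions, all nonempty: distinct representatives. -/
lemma exists_sdr {T : Fin 3 → Finset Q} (h1 : ∀ i, (T i).Nonempty)
    (h2 : ∀ i j, i ≠ j → 2 ≤ (T i ∪ T j).card) (h3 : 3 ≤ (T 0 ∪ T 1 ∪ T 2).card) :
    ∃ t : Fin 3 → Q, Function.Injective t ∧ ∀ i, t i ∈ T i := by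
  rw [← Finset.all_card_le_biUnion_card_iff_exists_injective]
  intro s
  by_cases hs : s = univ
  · subst hs
    have : (univ : Finset (Fin 3)).biUnion T = T 0 ∪ T 1 ∪ T 2 := by
      ext x
      simp only [mem_biUnion, mem_univ, true_and, mem_union]
      constructor
      · rintro ⟨i, hi⟩
        fin_cases i
        · exact Or.inl (Or.inl hi)
        · exact Or.inl (Or.inr hi)
        · exact Or.inr hi
      · rintro ((h | h) | h)
        · exact ⟨0, h⟩
        · exact ⟨1, h⟩
        · exact ⟨2, h⟩
    rw [this]
    simpa using h3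
  · have hc : s.card ≤ 2 := by
      have h4 : s.card < (univ : Finset (Fin 3)).card :=
        Finset.card_lt_card (Finset.ssubset_univ_iff.2 hs)
      simp only [Finset.card_univ, Fintype.card_fin] at h4
      omega
    by_cases h0 : s.card ≤ 1
    · rcases Nat.eq_zero_or_pos s.card with h5 | h5
      · rw [h5]; exact Nat.zero_le _
      · obtain ⟨i, hi⟩ := Finset.card_pos.1 h5
        obtain ⟨x, hx⟩ := h1 i
        have : 1 ≤ (s.biUnion T).card := Finset.card_pos.2 ⟨x, mem_biUnion.2 ⟨i, hi, hx⟩⟩
        omega
    · obtain ⟨i, hi, j, hj, hij⟩ := Finset.one_lt_card.1 (show 1 < s.card by omega)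
      have h5 := h2 i j hij
      have h6 : T i ∪ T j ⊆ s.biUnion T := by
        intro x hx
        rw [mem_union] at hx
        rw [mem_biUnion]
        rcases hx with h | h
        · exact ⟨i, hi, h⟩
        · exact ⟨j, hj, h⟩
      have h7 := Finset.card_le_card h6
      omega

lemma compl_card {S : Finset Q} : (univ \ S).card + S.card = 8 := by
  have := Finset.card_sdiff_add_card_eq_card (subset_univ S)
  rw [card_univ_Q] at this
  exact this

/-- The case of an empty set. -/
lemma few_empty {T : Fin 3 → Finset Q} {i j l : Fin 3} (hij : i ≠ j) (hall : ∀ m, m = i ∨ m = j ∨ m = l)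
    (hl : T l = ∅) (hi : 2 ≤ (T i).card) (hj : 2 ≤ (T j).card) (h3 : 3 ≤ (T i ∪ T j).card) :
    (few T).card + (none3 T).card ≤ 4 ∧ (none3 T).card ≤ 1 := by
  have hnl : ∀ z, z ∉ nb (T l) := by
    intro z hz
    rw [hl, mem_nb] at hz
    obtain ⟨x, hx, -⟩ := hz
    simp at hx
  have e1 : few T = (univ \ nb (T i)) ∪ (univ \ nb (T j)) := by
    ext z
    rw [mem_few, mem_union, mem_sdiff, mem_sdiff]
    simp only [mem_univ, true_and]
    constructor
    · intro h
      by_contra hcon
      push Not at hcon
      exact hij (h i j hcon.1 hcon.2)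
    · intro h a b ha hb
      have ha' : a ≠ l := fun e => hnl z (e ▸ ha)
      have hb' : b ≠ l := fun e => hnl z (e ▸ hb)
      rcases hall a with e | e | e
      · rcases hall b with e' | e' | e'
        · rw [e, e']
        · rw [e] at ha; rw [e'] at hb
          rcases h with h | h
          · exact absurd ha h
          · exact absurd hb h
        · exact absurd e' hb'
      · rcases hall b with e' | e' | e'
        · rw [e] at ha; rw [e'] at hb
          rcases h with h | h
          · exact absurd hb h
          · exact absurd ha h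
        · rw [e, e']
        · exact absurd e' hb'
      · exact absurd e ha'
  have e2 : none3 T = (univ \ nb (T i)) ∩ (univ \ nb (T j)) := by
    ext z
    rw [mem_none3, mem_inter, mem_sdiff, mem_sdiff]
    simp only [mem_univ, true_and]
    constructor
    · intro h; exact ⟨h i, h j⟩
    · intro h a
      rcases hall a with e | e | e
      · rw [e]; exact h.1
      · rw [e]; exact h.2
      · rw [e]; exact hnl z
  have e3 := Finset.card_union_add_card_inter (univ \ nb (T i)) (univ \ nb (T j))
  rw [← e1, ← e2] at e3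
  have h4 := nb_card2 hi
  have h5 := nb_card2 hj
  have h6 := compl_card (S := nb (T i))
  have h7 := compl_card (S := nb (T j))
  have h8 : none3 T ⊆ univ \ nb (T i ∪ T j) := by
    intro z hz
    rw [mem_none3] at hz
    rw [mem_sdiff]
    refine ⟨mem_univ _, fun h => ?_⟩
    rw [mem_nb] at h
    obtain ⟨x, hx, hxz⟩ := h
    rw [mem_union] at hx
    rcases hx with hx | hx
    · exact hz i (mem_nb.2 ⟨x, hx, hxz⟩)
    · exact hz j (mem_nb.2 ⟨x, hx, hxz⟩)
  have h9 := Finset.card_le_card h8
  have h10 := nb_card3 h3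
  have h11 := compl_card (S := nb (T i ∪ T j))
  omega

/-- Main count: at most four labels are near at most one of the three sets; at most one is near none;
if both are attained the four labels are closed under the sum of three labels. -/
lemma few_main {T : Fin 3 → Finset Q} (h2 : ∀ i j, i ≠ j → 2 ≤ (T i ∪ T j).card)
    (h3 : 3 ≤ (T 0 ∪ T 1 ∪ T 2).card) :
    (few T).card ≤ 4 ∧ (none3 T).card ≤ 1 ∧ ((none3 T).Nonempty → (few T).card = 4 →
      ∀ x ∈ few T, ∀ y ∈ few T, ∀ z ∈ few T, x3 x y z ∈ few T) := by
  by_cases h1 : ∀ i, (T i).Nonempty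
  · obtain ⟨t, htinj, ht⟩ := exists_sdr h1 h2 h3
    have hab : t 0 ≠ t 1 := fun h => by have := htinj h; simp at this
    have hac : t 0 ≠ t 2 := fun h => by have := htinj h; simp at this
    have hbc : t 1 ≠ t 2 := fun h => by have := htinj h; simp at this
    have hsub : few T ⊆ univ.filter (fun z => fewb (t 0) (t 1) (t 2) z = true) := by
      intro z hz
      rw [mem_few] at hz
      rw [mem_filter]
      refine ⟨mem_univ _, ?_⟩
      have key : ∀ i j, i ≠ j → ¬ (nr (t i) z = true ∧ nr (t j) z = true) := by
        rintro i j hij ⟨h4, h5⟩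
        exact hij (hz i j (mem_nb.2 ⟨_, ht i, h4⟩) (mem_nb.2 ⟨_, ht j, h5⟩))
      have k1 := key 0 1 (by decide)
      have k2 := key 0 2 (by decide)
      have k3 := key 1 2 (by decide)
      unfold fewb
      revert k1 k2 k3
      cases nr (t 0) z <;> cases nr (t 1) z <;> cases nr (t 2) z <;> simp
    have hsub2 : none3 T ⊆ univ.filter (fun z => nr (t 0) z = false ∧ nr (t 1) z = false ∧
        nr (t 2) z = false) := by
      intro z hz
      rw [mem_none3] at hz
      rw [mem_filter]
      have key : ∀ i, nr (t i) z = false := by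
        intro i
        by_contra h
        rw [Bool.not_eq_false] at h
        exact hz i (mem_nb.2 ⟨_, ht i, h⟩)
      exact ⟨mem_univ _, key 0, key 1, key 2⟩
    have c1 := fewb_card (t 0) (t 1) (t 2) hab hac hbc
    have c2 := noneb_card (t 0) (t 1) (t 2) hab hac hbc
    have c3 := Finset.card_le_card hsub
    have c4 := Finset.card_le_card hsub2
    refine ⟨by omega, by omega, ?_⟩
    rintro ⟨u, hu⟩ h4 x hx y hy z hz
    have heq : few T = univ.filter (fun z => fewb (t 0) (t 1) (t 2) z = true) :=
      Finset.eq_of_subset_of_card_le hsub (by omega)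
    rw [heq, mem_filter] at hx hy hz ⊢
    have hu' := hsub2 hu
    rw [mem_filter] at hu'
    exact ⟨mem_univ _, few_spec hab hac hbc hu'.2.1 hu'.2.2.1 hu'.2.2.2 hx.2 hy.2 hz.2⟩
  · push Not at h1
    obtain ⟨l, hl⟩ := h1
    have hsz : ∀ i, i ≠ l → 2 ≤ (T i).card := by
      intro i hi
      have := h2 i l hi
      rwa [hl, Finset.union_empty] at this
    have main : (few T).card + (none3 T).card ≤ 4 ∧ (none3 T).card ≤ 1 := by
      fin_cases l
      · refine few_empty (i := 1) (j := 2) (l := 0) (by decide) (by decide) hl (hsz 1 (by decide))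
          (hsz 2 (by decide)) ?_
        have e : T 0 = ∅ := hl
        rwa [e, Finset.empty_union] at h3
      · refine few_empty (i := 0) (j := 2) (l := 1) (by decide) (by decide) hl (hsz 0 (by decide))
          (hsz 2 (by decide)) ?_
        have e : T 1 = ∅ := hl
        rwa [e, Finset.union_empty] at h3
      · refine few_empty (i := 0) (j := 1) (l := 2) (by decide) (by decide) hl (hsz 0 (by decide))
          (hsz 1 (by decide)) ?_
        have e : T 2 = ∅ := hl
        rwa [e, Finset.union_empty] at h3
    refine ⟨by omega, main.2, fun hne h4 => ?_⟩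
    have := Finset.card_pos.2 hne
    omega

/-- Bad labels between two arms: all pairs of a left start and a right start seen from the label are
conflict pairs of a matching. There are at most four bad labels. -/
lemma bad_card {T S : Fin 3 → Finset Q} (hT2 : ∀ i j, i ≠ j → 2 ≤ (T i ∪ T j).card)
    (hT3 : 3 ≤ (T 0 ∪ T 1 ∪ T 2).card) (hS2 : ∀ i j, i ≠ j → 2 ≤ (S i ∪ S j).card)
    (hS3 : 3 ≤ (S 0 ∪ S 1 ∪ S 2).card) (κ : Fin 3 → Fin 3 → Prop)
    (h1 : ∀ a b b', κ a b → κ a b' → b = b') (h2 : ∀ a a' b, κ a b → κ a' b → a = a')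
    (W : Finset Q) (hW : ∀ z ∈ W, ∀ i j, z ∈ nb (T i) → z ∈ nb (S j) → κ i j) : W.card ≤ 4 := by
  obtain ⟨c1, c2, c3⟩ := few_main hT2 hT3
  obtain ⟨d1, d2, d3⟩ := few_main hS2 hS3
  have hsub : W ⊆ none3 T ∪ none3 S ∪ ((few T \ none3 T) ∩ (few S \ none3 S)) := by
    intro z hz
    rw [mem_union, mem_union, mem_inter, mem_sdiff, mem_sdiff]
    by_cases hT : z ∈ none3 T
    · exact Or.inl (Or.inl hT)
    by_cases hS : z ∈ none3 S
    · exact Or.inl (Or.inr hS)
    refine Or.inr ⟨⟨?_, hT⟩, ⟨?_, hS⟩⟩
    · rw [mem_none3] at hS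
      push Not at hS
      obtain ⟨j, hj⟩ := hS
      rw [mem_few]
      intro a b ha hb
      exact h2 a b j (hW z hz a j ha hj) (hW z hz b j hb hj)
    · rw [mem_none3] at hT
      push Not at hT
      obtain ⟨i, hi⟩ := hT
      rw [mem_few]
      intro a b ha hb
      exact h1 i a b (hW z hz i a hi ha) (hW z hz i b hi hb)
  have e1 := Finset.card_le_card hsub
  have e2 := Finset.card_union_le (none3 T ∪ none3 S) ((few T \ none3 T) ∩ (few S \ none3 S))
  have e3 := Finset.card_union_le (none3 T) (none3 S)
  have e4 := Finset.card_sdiff_add_card_eq_card (none3_subset T)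
  have e5 := Finset.card_sdiff_add_card_eq_card (none3_subset S)
  have e6 : ((few T \ none3 T) ∩ (few S \ none3 S)).card ≤ (few T \ none3 T).card :=
    Finset.card_le_card Finset.inter_subset_left
  have e7 : ((few T \ none3 T) ∩ (few S \ none3 S)).card ≤ (few S \ none3 S).card :=
    Finset.card_le_card Finset.inter_subset_right
  by_contra hcon
  have hI : ((few T \ none3 T) ∩ (few S \ none3 S)).card = 3 := by omega
  have hnT : (none3 T).Nonempty := by rw [← Finset.card_pos]; omega
  have hnS : (none3 S).Nonempty := by rw [← Finset.card_pos]; omega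
  have hfT : (few T).card = 4 := by omega
  have hfS : (few S).card = 4 := by omega
  obtain ⟨x, y, z, hxy, hxz, hyz, hI'⟩ := Finset.card_eq_three.1 hI
  have hin : ∀ w ∈ ({x, y, z} : Finset Q), w ∈ few T \ none3 T ∧ w ∈ few S \ none3 S := by
    intro w hw
    rw [← hI', mem_inter] at hw
    exact hw
  have hx := hin x (by simp)
  have hy := hin y (by simp)
  have hz := hin z (by simp)
  have q1 := c3 hnT hfT x (mem_sdiff.1 hx.1).1 y (mem_sdiff.1 hy.1).1 z (mem_sdiff.1 hz.1).1
  have q2 := d3 hnS hfS x (mem_sdiff.1 hx.2).1 y (mem_sdiff.1 hy.2).1 z (mem_sdiff.1 hz.2).1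
  obtain ⟨n1, n2, n3⟩ := x3_ne x y z hxy hxz hyz
  have fT : few T \ none3 T = {x, y, z} := by
    symm
    apply Finset.eq_of_subset_of_card_le
    · intro w hw; exact (hin w hw).1
    · rw [← hI', hI]; omega
  have fS : few S \ none3 S = {x, y, z} := by
    symm
    apply Finset.eq_of_subset_of_card_le
    · intro w hw; exact (hin w hw).2
    · rw [← hI', hI]; omega
  have m1 : x3 x y z ∈ none3 T := by
    by_contra h
    have : x3 x y z ∈ few T \ none3 T := mem_sdiff.2 ⟨q1, h⟩
    rw [fT] at this
    simp only [mem_insert, mem_singleton] at this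
    rcases this with h | h | h
    · exact n1 h
    · exact n2 h
    · exact n3 h
  have m2 : x3 x y z ∈ none3 S := by
    by_contra h
    have : x3 x y z ∈ few S \ none3 S := mem_sdiff.2 ⟨q2, h⟩
    rw [fS] at this
    simp only [mem_insert, mem_singleton] at this
    rcases this with h | h | h
    · exact n1 h
    · exact n2 h
    · exact n3 h
  have m3 : 1 ≤ (none3 T ∩ none3 S).card := Finset.card_pos.2 ⟨_, mem_inter.2 ⟨m1, m2⟩⟩
  have m4 := Finset.card_union_add_card_inter (none3 T) (none3 S)
  omega

/-- Interior slack: end lists of size three, inner lists of size four, one inner list of size five; for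
every matching of conflict pairs of end labels some walk avoids the conflict. -/
theorem end_slack {A : ℕ → Finset Q} {k r : ℕ} (hr0 : 0 < r) (hrk : r < k)
    (hA : ∀ i, 0 < i → i < k → 4 ≤ (A i).card) (h0 : 3 ≤ (A 0).card) (hk : 3 ≤ (A k).card)
    (hs : 5 ≤ (A r).card) (κ : Q → Q → Prop) (h1 : ∀ a b b', κ a b → κ a b' → b = b')
    (h2 : ∀ a a' b, κ a b → κ a' b → a = a') :
    ∃ w : ℕ → Q, (∀ i, i ≤ k → w i ∈ A i) ∧ (∀ i, i < k → nr (w i) (w (i + 1)) = true) ∧
      ¬ κ (w 0) (w k) := by
  by_contra hcon
  push Not at hcon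
  obtain ⟨a, ha, b, hb, c, hc, hab, hac, hbc⟩ := Finset.two_lt_card.1 (show 2 < (A 0).card by omega)
  obtain ⟨a', ha', b', hb', c', hc', hab', hac', hbc'⟩ :=
    Finset.two_lt_card.1 (show 2 < (A k).card by omega)
  obtain ⟨n, rfl⟩ : ∃ n, r = n + 1 := ⟨r - 1, by omega⟩
  obtain ⟨m, hm⟩ : ∃ m, k - (n + 1) = m + 1 := ⟨k - (n + 1) - 1, by omega⟩
  let s : Fin 3 → Q := ![a, b, c]
  let s' : Fin 3 → Q := ![a', b', c']
  let T : Fin 3 → Finset Q := fun i => reach {s i} A n
  let S : Fin 3 → Finset Q := fun i => reach {s' i} (fun j => A (k - j)) m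
  have hs0 : ∀ i, s i ∈ A 0 := by intro i; fin_cases i <;> assumption
  have hs0' : ∀ i, s' i ∈ A k := by intro i; fin_cases i <;> assumption
  have hsinj : ∀ i j, s i = s j → i = j := by
    intro i j
    fin_cases i <;> fin_cases j <;> simp [s, hab, hac, hbc, hab.symm, hac.symm, hbc.symm]
  have hsinj' : ∀ i j, s' i = s' j → i = j := by
    intro i j
    fin_cases i <;> fin_cases j <;> simp [s', hab', hac', hbc', hab'.symm, hac'.symm, hbc'.symm]
  have hun : ∀ (B : ℕ → Finset Q) (l : ℕ) (x y : Q), reach {x, y} B l ⊆ reach {x} B l ∪ reach {y} B l := by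
    intro B l x y v hv
    rw [reach_start] at hv
    obtain ⟨u, hu, huv⟩ := hv
    simp only [mem_insert, mem_singleton] at hu
    rw [mem_union]
    rcases hu with rfl | rfl
    · exact Or.inl huv
    · exact Or.inr huv
  have hun3 : ∀ (B : ℕ → Finset Q) (l : ℕ) (x y z : Q),
      reach {x, y, z} B l ⊆ reach {x} B l ∪ reach {y} B l ∪ reach {z} B l := by
    intro B l x y z v hv
    rw [reach_start] at hv
    obtain ⟨u, hu, huv⟩ := hv
    simp only [mem_insert, mem_singleton] at hu
    rw [mem_union, mem_union]
    rcases hu with rfl | rfl | rfl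
    · exact Or.inl (Or.inl huv)
    · exact Or.inl (Or.inr huv)
    · exact Or.inr huv
  have hAr : ∀ i, 0 < i → i ≤ m → 4 ≤ (A (k - i)).card := fun i hi0 hi => hA (k - i) (by omega) (by omega)
  have hT2 : ∀ i j, i ≠ j → 2 ≤ (T i ∪ T j).card := by
    intro i j hij
    refine le_trans (reach_card2 (L := {s i, s j}) ?_ (fun l hl0 hl => hA l hl0 (by omega)))
      (Finset.card_le_card (hun A n (s i) (s j)))
    rw [Finset.card_pair (fun h => hij (hsinj i j h))]
  have hS2 : ∀ i j, i ≠ j → 2 ≤ (S i ∪ S j).card := by
    intro i j hij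
    refine le_trans (reach_card2 (L := {s' i, s' j}) ?_ hAr)
      (Finset.card_le_card (hun _ m (s' i) (s' j)))
    rw [Finset.card_pair (fun h => hij (hsinj' i j h))]
  have hT3 : 3 ≤ (T 0 ∪ T 1 ∪ T 2).card := by
    refine le_trans (reach_card3 (L := {s 0, s 1, s 2}) ?_ (fun l hl0 hl => hA l hl0 (by omega)))
      (Finset.card_le_card (hun3 A n (s 0) (s 1) (s 2)))
    have : ({s 0, s 1, s 2} : Finset Q) = {a, b, c} := rfl
    rw [this, Finset.card_eq_three.2 ⟨a, b, c, hab, hac, hbc, rfl⟩]
  have hS3 : 3 ≤ (S 0 ∪ S 1 ∪ S 2).card := by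
    refine le_trans (reach_card3 (L := {s' 0, s' 1, s' 2}) ?_ hAr)
      (Finset.card_le_card (hun3 _ m (s' 0) (s' 1) (s' 2)))
    have : ({s' 0, s' 1, s' 2} : Finset Q) = {a', b', c'} := rfl
    rw [this, Finset.card_eq_three.2 ⟨a', b', c', hab', hac', hbc', rfl⟩]
  have hbad := bad_card hT2 hT3 hS2 hS3 (fun i j => κ (s i) (s' j))
    (fun i j j' hj hj' => hsinj' j j' (h1 _ _ _ hj hj'))
    (fun i i' j hj hj' => hsinj i i' (h2 _ _ _ hj hj')) (A (n + 1)) (by
      intro z hz i j hi hj
      -- a walk through z
      rw [mem_nb] at hi hj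
      obtain ⟨x, hx, hxz⟩ := hi
      obtain ⟨y, hy, hyz⟩ := hj
      have hzl : z ∈ reach {s i} A (n + 1) := by
        rw [reach_succ, mem_inter, mem_nb]; exact ⟨⟨x, hx, hxz⟩, hz⟩
      have hzr : z ∈ reach {s' j} (fun l => A (k - l)) (m + 1) := by
        rw [reach_succ, mem_inter, mem_nb]
        refine ⟨⟨y, hy, hyz⟩, ?_⟩
        show z ∈ A (k - (m + 1))
        rwa [show k - (m + 1) = n + 1 by omega]
      obtain ⟨w1, g1, g2, g3, g4⟩ := reach_walk hzl
      obtain ⟨w2, f1, f2, f3, f4⟩ := reach_walk hzr
      rw [mem_singleton] at g1 f1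
      have hw := hcon (fun l => if l ≤ n + 1 then w1 l else w2 (k - l)) (by
        intro l hl
        by_cases h : l ≤ n + 1
        · simp only [h, if_true]
          by_cases h0 : l = 0
          · rw [h0, g1]; exact hs0 i
          · exact g3 l (by omega) h
        · simp only [h, if_false]
          by_cases h0 : l = k
          · rw [h0, Nat.sub_self, f1]; exact hs0' j
          · have := f3 (k - l) (by omega) (by omega)
            rwa [show k - (k - l) = l by omega] at this) (by
        intro l hl
        by_cases h : l + 1 ≤ n + 1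
        · have h' : l ≤ n + 1 := by omega
          simp only [h, h', if_true]; exact g4 l (by omega)
        · by_cases h' : l ≤ n + 1
          · have hir : l = n + 1 := by omega
            subst hir
            simp only [h, le_refl, if_true, if_false, g2]
            have e : k - (n + 1) = (k - (n + 1 + 1)) + 1 := by omega
            have := f4 (k - (n + 1 + 1)) (by omega)
            rw [← e, hm, f2] at this
            exact nr_symm this
          · simp only [h, h', if_false]
            have e : k - l = (k - (l + 1)) + 1 := by omega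
            have := f4 (k - (l + 1)) (by omega)
            rw [← e] at this
            exact nr_symm this)
      have e0 : (if 0 ≤ n + 1 then w1 0 else w2 (k - 0)) = s i := by
        rw [if_pos (Nat.zero_le _), g1]
      have e1 : (if k ≤ n + 1 then w1 k else w2 (k - k)) = s' j := by
        rw [if_neg (by omega), Nat.sub_self, f1]
      show κ (s i) (s' j)
      rw [← e0, ← e1]
      exact hw)
  omega

end CLB.H91
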